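import Mathlib
import Pool.Agent.Run7.h988.DG.Ratio

/-!
# Ratios of successive critical values: all Artin twists from the monomial ones

Let `F` be a totally imaginary field, `M₀` a pure motive of rank `n` over `F` with coefficients in `E`,
and let `K/F` be a Galois extension with group `G`. For an embedding `τ` of `E` and an irreducible complex
character `χ` of `G` let `L τ χ` be the completed L-function of `τM₀ ⊗ χ`. Let `c` and `c + 1` be critical
(they are so for all twists, if for one), let `L τ χ` be nonzero at `c + 1`, and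
`κ = (i^(d_F / 2) Δ_F) ^ n`. The statement of Q1 for the twist by an Artin representation `ρ` of degree
`d` over `E` is: for one `e ∈ E`, the ratio of the values at `c` and `c + 1` at every embedding `τ` is
`τ e` times `κ ^ d` (`RatioHolds`); `e` is zero if and only if the value at `c` vanishes (at one or at all
embeddings), which is possible only at the centre.

For the representations `Ind ψ` induced from the linear characters of subgroups these are the ratios for
the twists of `M₀` over the intermediate fields of `K/F` by the characters `ψ` of finite order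
(`Δ` of an extension field is the power of `Δ_F`). For `M₀` of an automorphic representation `σ` of
`GL(n)` this is the theorem of Raghuram for `GL(n) × GL(1)` over all the intermediate fields, as far as the
base change of `σ` is known, for instance for solvable `K/F`, or for all `K` if `M₀` is of CM type. So
the theorem gives the ratios for the twists by ALL Artin representations of such `K/F`, also by those
which are not sums of monomial ones, with the following conditions at the centre, at ONE embedding `τ₀` of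
`E`. The first one is satisfied off the centre.

1. The L-function over `K` vanishes at `c` to order at most one.
2. The order is at most two, `τ₀` is real, and the L-function of the twist has no pole at `c`.
3. `N` is a solvable normal subgroup of `G` with nilpotent quotient, for instance the full group; the
order of the L-function over `K` is less than the order of the L-function of `M₀ ⊗ μ` over the fixed
field of `N` plus every prime divisor of `|N|`, for a linear character `μ` of `N`.
4. All zeros at `c` over `K` come from a Galois extension of `F` whose group has an abelian normal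
subgroup with nilpotent quotient.
5. `N` is a normal subgroup of `G` with abelian-by-nilpotent quotient; all zeros at `c` come from the
largest abelian extension of `K ^ N` in `K`, and those of the nontrivial characters are simple.

The proof uses the starting library `Pool/Agent/R389` on Deligne's conjecture and its extension
`Pool/Agent/Run7/h988/DG` (see the results `GrowthOfOrders` in `MP_100fe7_nt` and `SmallOrders` in
`MP_cd171c_nt` on the values themselves).
-/

set_option autoImplicit false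

open Filter Topology Pool.Agent.H541R3.ART

namespace Pool.Agent.Results.MP_c63a07_nt.ArtinTwists

/-- The completed L-functions `L τ χ` of the twists `τM₀ ⊗ χ` of a motive `M₀` with coefficients in `E`
by the irreducible complex characters `χ` of the group `G`: meromorphic and not identically zero near
`c`, and with neither a zero nor a pole at `c + 1`. -/
structure Twists (E G : Type) [Field E] [Group G] (c : ℂ) where
  /-- the L-functions -/
  L : (E →+* ℂ) → (G → ℂ) → ℂ → ℂ
  /-- the L-functions are meromorphic and not identically zero near `c` -/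
  mero : ∀ τ, ∀ χ ∈ Irr G, MeromorphicAt (L τ χ) c ∧ meromorphicOrderAt (L τ χ) c ≠ ⊤
  /-- the L-functions are meromorphic near `c + 1` -/
  next : ∀ τ, ∀ χ ∈ Irr G, MeromorphicAt (L τ χ) (c + 1)
  /-- the L-functions have no zero and no pole at `c + 1` -/
  unit : ∀ τ, ∀ χ ∈ Irr G, meromorphicOrderAt (L τ χ) (c + 1) = 0

/-- `f` is the sum of `m χ` copies of `χ` over the irreducible complex characters `χ` of `G` -/
def IsSum {G : Type} [Group G] (f : G → ℂ) (m : (G → ℂ) → ℕ) : Prop :=
  ∀ g, f g = ∑ᶠ χ ∈ Irr G, (m χ : ℂ) * χ g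

variable {E G : Type} [Field E] [Group G] {c : ℂ}

/-- **The relation of Q1** for the twist by a character `f` of degree `d` with values in `E' ⊇ E`: for
one `e ∈ E'`, at every embedding `τ` of `E'`, the ratio of the values of the L-function of `f` at `c` and
at `c + 1` is `τ e` times `κ ^ d`; the L-function is the product of those of the constituents of `τ ∘ f`. -/
def RatioHolds (D : Twists E G c) (κ : ℂ) (E' : Type) [Field E'] [Algebra E E'] (f : G → E')
    (d : ℕ) : Prop :=
  ∃ e : E', ∀ (τ : E' →+* ℂ) (m : (G → ℂ) → ℕ), IsSum (fun g => τ (f g)) m →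
    Tendsto (fun s => ∏ᶠ χ ∈ Irr G, (D.L (τ.comp (algebraMap E E')) χ s
      / D.L (τ.comp (algebraMap E E')) χ (s + 1)) ^ m χ) (𝓝[≠] c) (𝓝 (τ e * κ ^ d))

/-- the order at `c` of the product of the L-functions of the characters `χ ∈ S`, each with the
exponent `m χ` -/
noncomputable def order (D : Twists E G c) (τ : E →+* ℂ) (S : Set (G → ℂ)) (m : (G → ℂ) → ℕ) :
    WithTop ℤ :=
  meromorphicOrderAt (fun s => ∏ᶠ χ ∈ S, D.L τ χ s ^ m χ) c

open Classical in
/-- the function induced from a function on a subgroup: `(Ind f) g` is the sum of the values of `f` at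
the conjugates `x⁻¹ g x ∈ H`, `x ∈ G`, divided by `|H|` -/
noncomputable def Ind {k : Type*} [Field k] (H : Subgroup G) (f : H → k) (g : G) : k :=
  (Nat.card H : k)⁻¹ * ∑ᶠ x : G, if h : x⁻¹ * g * x ∈ H then f ⟨x⁻¹ * g * x, h⟩ else 0

/-- the group has an abelian normal subgroup with nilpotent quotient -/
def AbelianByNilpotent (U : Type) [Group U] : Prop :=
  ∃ (A : Subgroup U) (_ : A.Normal), (∀ a b : A, a * b = b * a) ∧ Group.IsNilpotent (U ⧸ A)

/-- one of the five conditions on the orders at the embedding `τ`, for the twist by the character `f` -/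
def FewZeros (D : Twists E G c) (τ : E →+* ℂ) (deg : (G → ℂ) → ℕ) (f : G → E) : Prop :=
  order D τ (Irr G) deg ≤ 1 ∨
  (order D τ (Irr G) deg ≤ 2 ∧ (∀ x : E, (starRingEnd ℂ) (τ x) = τ x) ∧
    ∀ m, IsSum (fun g => τ (f g)) m → 0 ≤ order D τ (Irr G) m) ∨
  (∃ (N : Subgroup G) (_ : N.Normal) (μ : N →* ℂˣ) (m : (G → ℂ) → ℕ), Group.IsSolvable N ∧
    Group.IsNilpotent (G ⧸ N) ∧ IsSum (Ind N (fun x => ((μ x : ℂˣ) : ℂ))) m ∧
    ∀ p : ℕ, p.Prime → p ∣ Nat.card N → order D τ (Irr G) deg < order D τ (Irr G) m + p) ∨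
  (∃ (H : Subgroup G) (_ : H.Normal), AbelianByNilpotent (G ⧸ H) ∧
    order D τ (Irr G) deg ≤ order D τ {χ ∈ Irr G | ∀ k ∈ H, χ k = χ 1} deg) ∨
  (∃ (N : Subgroup G) (_ : N.Normal), AbelianByNilpotent (G ⧸ N) ∧
    order D τ (Irr G) deg ≤ order D τ {χ ∈ Irr G | ∀ k ∈ ⁅N, N⁆, χ k = χ 1} deg ∧
    ∀ μ : N →* ℂˣ, μ ≠ 1 → ∀ m, IsSum (Ind N (fun x => ((μ x : ℂˣ) : ℂ))) m →
      order D τ (Irr G) m ≤ 1)

section proof

open Pool.Agent.R389 Run7.h988.DG

variable [Finite G]

/-- the ratios -/
noncomputable def R (D : Twists E G c) (τ : E →+* ℂ) (χ : G → ℂ) (s : ℂ) : ℂ :=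
  D.L τ χ s / D.L τ χ (s + 1)

omit [Finite G] in
lemma R_mero (D : Twists E G c) (τ : E →+* ℂ) (χ : G → ℂ) (hχ : χ ∈ Irr G) :
    MeromorphicAt (R D τ χ) c ∧ meromorphicOrderAt (R D τ χ) c ≠ ⊤ := by
  have h := ratio_mero (D.mero τ χ hχ) (D.next τ χ hχ) (D.unit τ χ hχ)
  exact ⟨h.1, by
    have h2 := h.2
    change meromorphicOrderAt (R D τ χ) c = _ at h2
    rw [h2]; exact (D.mero τ χ hχ).2⟩

omit [Finite G] in
lemma R_order (D : Twists E G c) (τ : E →+* ℂ) (χ : G → ℂ) (hχ : χ ∈ Irr G) :
    meromorphicOrderAt (R D τ χ) c = meromorphicOrderAt (D.L τ χ) c :=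
  (ratio_mero (D.mero τ χ hχ) (D.next τ χ hχ) (D.unit τ χ hχ)).2

lemma R_ords (D : Twists E G c) (τ : E →+* ℂ) {χ : G → ℂ} (hχ : χ ∈ Irr G) :
    ords (R D τ) c χ = ords (D.L τ) c χ := by
  rw [ords, ords, R_order D τ χ hχ]

/-- the orders of the products of the ratios -/
lemma order_eq (D : Twists E G c) (τ : E →+* ℂ) (p : (G → ℂ) → Prop) (m : (G → ℂ) → ℕ) :
    meromorphicOrderAt (fun s => ∏ᶠ χ ∈ {χ ∈ Irr G | p χ}, R D τ χ s ^ m χ) c
      = order D τ {χ ∈ Irr G | p χ} m := by
  classical
  rw [order, old_order (R_mero D τ) m p, old_order (D.mero τ) m p]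
  congr 1
  refine Finset.sum_congr rfl fun χ hχ => ?_
  rw [R_ords D τ (mem_irrF.mp (Finset.mem_filter.mp hχ).1)]

lemma order_eq' (D : Twists E G c) (τ : E →+* ℂ) (m : (G → ℂ) → ℕ) :
    meromorphicOrderAt (fun s => ∏ᶠ χ ∈ Irr G, R D τ χ s ^ m χ) c = order D τ (Irr G) m := by
  classical
  rw [order, top_order (R_mero D τ) m, top_order (D.mero τ) m]
  congr 1
  refine Finset.sum_congr rfl fun χ hχ => ?_
  rw [R_ords D τ (mem_irrF.mp hχ)]

/-- the periods -/
lemma prod_kappa {κ : ℂ} {deg : (G → ℂ) → ℕ} (hdeg : ∀ χ ∈ Irr G, χ 1 = deg χ) {f : G → ℂ}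
    {m : (G → ℂ) → ℕ} (hm : IsDecomp f m) {d : ℕ} (hd : f 1 = d) :
    ∏ᶠ χ ∈ Irr G, (κ ^ deg χ) ^ m χ = κ ^ d := by
  classical
  rw [finprod_irr (fun χ => (κ ^ deg χ) ^ m χ)]
  have h1 := hm 1
  rw [finsum_irr (fun χ => (m χ : ℂ) * χ 1), hd] at h1
  have h2 : (d : ℂ) = ((∑ χ ∈ irrF G, m χ * deg χ : ℕ) : ℂ) := by
    rw [h1]
    push_cast
    exact Finset.sum_congr rfl fun χ hχ => by rw [hdeg χ (mem_irrF.mp hχ)]
  have h3 : d = ∑ χ ∈ irrF G, m χ * deg χ := by exact_mod_cast h2
  rw [h3, ← Finset.prod_pow_eq_pow_sum]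
  refine Finset.prod_congr rfl fun χ _ => ?_
  rw [← pow_mul, mul_comm]

end proof

theorem result {E : Type} [Field E] {G : Type} [Group G] [Finite G] {c : ℂ} (D : Twists E G c)
    (κ : ℂ) (hκ : κ ≠ 0)
    (E' : Type) [Field E'] [Algebra E E'] [Algebra.IsAlgebraic E E'] (ζ : E')
    (hζ : IsPrimitiveRoot ζ (Monoid.exponent G))
    (hmon : ∀ (U : Subgroup G) (ψ : U →* E'ˣ),
      RatioHolds D κ E' (Ind U (fun u => ((ψ u : E'ˣ) : E'))) U.index)
    (τ₀ : E →+* ℂ) (deg : (G → ℂ) → ℕ) (hdeg : ∀ χ ∈ Irr G, χ 1 = deg χ)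
    {V : Type} [AddCommGroup V] [Module E V] [FiniteDimensional E V] (ρ : Representation E G V)
    (h : FewZeros D τ₀ deg ρ.character) :
    RatioHolds D κ E ρ.character (Module.finrank E V) := by
  classical
  -- the periods
  let P : (E →+* ℂ) → (G → ℂ) → ℂ := fun _ χ => κ ^ deg χ
  have hP : ∀ τ, ∀ χ ∈ Irr G, P τ χ ≠ 0 := fun _ χ _ => pow_ne_zero _ hκ
  have hL : ∀ τ, ∀ χ ∈ Irr G, MeromorphicAt (R D τ χ) c ∧ meromorphicOrderAt (R D τ χ) c ≠ ⊤ :=
    fun τ => R_mero D τ
  have hmon' : ∀ (U : Subgroup G) (ψ : U →* E'ˣ), Pool.Agent.R389.Deligne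
      (Run7.h988.DG.up E' (R D)) (Run7.h988.DG.up E' P) c
      (Pool.Agent.R389.ind U (fun u => ((ψ u : E'ˣ) : E'))) := by
    intro U ψ
    obtain ⟨e, he⟩ := hmon U ψ
    refine ⟨e, fun τ m hm => ?_⟩
    have h1 := he τ m hm
    have h2 : (fun g => τ (Pool.Agent.R389.ind U (fun u => ((ψ u : E'ˣ) : E')) g)) 1
        = (U.index : ℂ) := by
      simp only
      rw [Pool.Agent.R389.ind_map]
      exact Pool.Agent.R389.ind_one_val U ((Units.map τ.toMonoidHom).comp ψ)
    have h3 : ∏ᶠ χ ∈ Irr G, Run7.h988.DG.up E' P τ χ ^ m χ = κ ^ U.index :=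
      prod_kappa hdeg hm h2
    rw [h3]
    exact h1
  have key : Pool.Agent.R389.Deligne (R D) P c ρ.character →
      RatioHolds D κ E ρ.character (Module.finrank E V) := by
    intro h
    rw [← Run7.h988.DG.up_self (R D), ← Run7.h988.DG.up_self P] at h
    obtain ⟨e, he⟩ := h
    refine ⟨e, fun τ m hm => ?_⟩
    have h1 := he τ m hm
    have h2 : (fun g => τ (ρ.character g)) 1 = (Module.finrank E V : ℂ) := by
      simp only
      rw [Representation.char_one, map_natCast]
    have h3 : ∏ᶠ χ ∈ Irr G, Run7.h988.DG.up E P τ χ ^ m χ = κ ^ Module.finrank E V :=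
      prod_kappa hdeg hm h2
    rw [h3] at h1
    exact h1
  refine key ?_
  rcases h with hz | ⟨hz, hr, hp⟩ | ⟨N, hN, μ, m, hsol, hnil, hm, hz⟩ | ⟨H, hH, hAN, hz⟩ |
    ⟨N, hN, hAN, hz, hs⟩
  · refine Run7.h988.DG.fin_all (E' := E') τ₀ hP (fun τ₁ h1 n σ => ?_) ρ
    refine Pool.Agent.R389.main (L := Run7.h988.DG.up E' (R D)) (P := Run7.h988.DG.up E' P)
      (p := 2) hζ (fun τ => hL _) (fun τ => hP (τ.comp (algebraMap E E'))) (fun U ψ _ => hmon' U ψ) τ₁ hdeg
      Nat.prime_two ⊤ Pool.Agent.R389.top_pgroup 1 ?_ σ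
    rw [h1]
    refine le_max_of_le_left ?_
    rw [order_eq']
    exact hz
  · refine Run7.h988.DG.fin_real (E' := E') hζ hL hP hmon' τ₀ hr hdeg ?_ ρ ?_
    · rw [order_eq']
      exact hz
    · intro m hm
      rw [order_eq']
      exact hp m hm
  · refine Run7.h988.DG.fin_all (E' := E') τ₀ hP (fun τ₁ h1 n σ => ?_) ρ
    refine Run7.h988.DG.main_small_nil (L := Run7.h988.DG.up E' (R D))
      (P := Run7.h988.DG.up E' P) hζ (fun τ => hL _) (fun τ => hP (τ.comp (algebraMap E E'))) hmon' τ₁ hdeg N hsol hnil μ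
      hm ?_ σ
    rw [h1]
    intro p hp hpN
    rw [order_eq', order_eq']
    exact hz p hp hpN
  · refine Run7.h988.DG.fin_all (E' := E') τ₀ hP (fun τ₁ h1 n σ => ?_) ρ
    refine Run7.h988.DG.main_an (L := Run7.h988.DG.up E' (R D))
      (P := Run7.h988.DG.up E' P) hζ (fun τ => hL _) (fun τ => hP (τ.comp (algebraMap E E'))) hmon' τ₁ hdeg H hAN ?_ σ
    rw [h1, order_eq', order_eq]
    exact hz
  · refine Run7.h988.DG.fin_all (E' := E') τ₀ hP (fun τ₁ h1 n σ => ?_) ρ
    refine Run7.h988.DG.main_simple (L := Run7.h988.DG.up E' (R D))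
      (P := Run7.h988.DG.up E' P) hζ (fun τ => hL _) (fun τ => hP (τ.comp (algebraMap E E'))) hmon' τ₁ hdeg N ?_ ?_ ?_ σ
    · rw [h1, order_eq', order_eq]
      exact hz
    · rw [h1]
      intro μ hμ m hm
      rw [order_eq']
      exact hs μ hμ m hm
    · intro W _ _ _ σ hσ
      exact Run7.h988.DG.del_of_an (L := Run7.h988.DG.up E' (R D))
        (P := Run7.h988.DG.up E' P) hζ (fun τ => hL _) (fun τ => hP (τ.comp (algebraMap E E'))) hmon' τ₁ hAN σ hσ

end Pool.Agent.Results.MP_c63a07_nt.ArtinTwists
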