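import Pool.Agent.Run7.h810.DW.Imag

namespace Pool.Agent.Results.MP_c63a07_nt.RatiosFromQuotients

open NumberField Pool.Agent.Run7.h810.DF Pool.Agent.Run7.h810.DW

/-- Let `M` be a motive over a totally imaginary number field `F`, with coefficients in `C`, given by
its Frobenius traces `t p k`, and let `𝒞` be a class of finite groups, for instance all groups, the
solvable groups, or the 2-groups. The ratios `L(m, M ⊗ ρ) / L(m + 1, M ⊗ ρ)` are `κ ^ dim ρ` up to
the coefficients, for all Artin representations `ρ` of the Galois extensions `N` of `F` with group in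
`𝒞`, if and only if this holds for one linear character of `F`, and for all fields `K` between `F`
and `N` and all characters `ψ`, `ψ'` of `K` the ratios for `M_K ⊗ ψ` and `M_K ⊗ ψ'` agree up to the
coefficients. -/
theorem result :
    (GrpClass (fun _ _ => True) ∧ GrpClass (fun G _ => Group.IsSolvable G) ∧
      GrpClass (fun G _ => IsPGroup 2 G)) ∧
    ∀ (F : Type) [Field F] [NumberField F], IsTotallyComplex F →
      ∀ (C : Type) [Field C] (t : Ideal (𝓞 F) → ℕ → C) (m : ℂ) (b : ℝ)
      (𝒞 : (G : Type) → [Group G] → Prop), GrpClass 𝒞 →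
      ∀ κ : (C →+* ℂ) → ℂ, (∀ e, κ e ≠ 0) →
      (RatioAll m t b κ (fun E => 𝒞 (Gal E)) ↔
        RatioQuo m t b (fun E => 𝒞 (Gal E)) ∧ ∃ (E : Ext F) (χ : Rep E 1), 𝒞 (Gal E) ∧
          ∀ (e : C →+* ℂ) (τ : ℂ ≃+* ℂ), RatioDel m t b κ e τ χ) :=
  ⟨⟨grp_all, grp_solvable, grp_two⟩, fun F _ _ hF C _ t m b 𝒞 h κ hκ => ratio hF h hκ⟩

end Pool.Agent.Results.MP_c63a07_nt.RatiosFromQuotients
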